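import Pool.Agent.Helper60.OWN.WeightedB

/-!
The `L^1` norm of the discrepancy function of weighted points, in every dimension `d ≥ 3`.
-/

set_option autoImplicit false

namespace Pool.Agent.Results.MP_c61924_co.WeightedPoints

/-- For every `d ≥ 3` there is `c > 0` such that for all `N ≥ 1`, all points `p 0, …, p (N - 1)` of `ℝ^d` (they may
coincide) and all real weights `w j` (of any sign), the function
`D x = ∑ j with p j in [0,x), w j - N * x_1 * ... * x_d` has `∫_{[0,1]^d} |D| ≥ c (1 + log N)^((d-1)/2)`.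
All weights equal to `1` is the discrepancy function of `N` points. -/
theorem result (d : ℕ) (hd : 3 ≤ d) :
    ∃ c : ℝ, 0 < c ∧ ∀ N : ℕ, 1 ≤ N → ∀ (p : Fin N → Fin d → ℝ) (w : Fin N → ℝ),
      c * (1 + Real.log N) ^ (((d : ℝ) - 1) / 2) ≤
        ∫ x in Set.Icc (0 : Fin d → ℝ) 1,
          |(∑ j, w j * (Set.pi Set.univ fun i => Set.Ico 0 (x i)).indicator 1 (p j)) - N * ∏ i, x i| := by
  classical
  obtain ⟨c, hc, h⟩ := Pool.Agent.Helper60.OWN.wdisc_all d (by omega)
  refine ⟨c, hc, fun N hN p w => ?_⟩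
  refine (h N hN p fun j => if ∀ i, 0 ≤ p j i then w j else 0).trans (le_of_eq ?_)
  congr 1
  funext x
  unfold Pool.Agent.Helper60.OWN.wdisc
  congr 2
  refine Finset.sum_congr rfl fun j _ => ?_
  beta_reduce
  by_cases h1 : ∀ i, 0 ≤ p j i
  · rw [if_pos h1]
    congr 1
    by_cases h2 : ∀ i, p j i < x i
    · rw [if_pos h2, Set.indicator_of_mem]
      · rfl
      · exact fun i _ => ⟨h1 i, h2 i⟩
    · rw [if_neg h2, Set.indicator_of_notMem]
      exact fun h3 => h2 fun i => (h3 i (Set.mem_univ i)).2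
  · rw [if_neg h1, Set.indicator_of_notMem]
    · ring
    · exact fun h3 => h1 fun i => (h3 i (Set.mem_univ i)).1

end Pool.Agent.Results.MP_c61924_co.WeightedPoints
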